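import Pool.Agent.TH660.SC.PolyL
import Pool.Agent.Results.MP_1195b1_lc.MatroidIntersection

/-!
# Skew-supermodular colouring with two prescribed class sizes is solvable in polynomial time
-/

namespace Pool.Agent.Results.MP_1195b1_lc.PolynomialTime

open Finset Pool.Agent.NPC Pool.Agent.H663R2.Skew
open Pool.Agent.Results.MP_1195b1_lc.MatroidIntersection (SkewSupermodular IsInput Feasible)

/-- The characteristic vector of a set. -/
def code {n : ℕ} (B : Finset (Fin n)) : List Bool := List.ofFn fun i => decide (i ∈ B)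

variable {n : ℕ}

/-- the criterion -/
theorem feasible_iff {m₁ m₂ n₁ n₂ : ℕ} {p₁ p₂ : Finset (Fin n) → ℤ}
    (h : IsInput m₁ m₂ n₁ n₂ p₁ p₂) (hn : n₂ ≤ n₁) :
    Feasible m₁ m₂ n₁ n₂ p₁ p₂ ↔
      ∀ X, TH660.SC.Hf (sh p₁ m₁) (sh p₂ m₁) X ≤ m₂ * n₂ := by
  have hsz : m₁ * n₁ + m₂ * n₂ = (univ : Finset (Fin n)).card := h.size
  constructor
  · intro hf X
    obtain ⟨A, h1, h2, h3⟩ := MatroidIntersection.exists_indep_of_feasible hf
    have := MatroidIntersection.upper_of_minmax h
      (MatroidIntersection.minmax_of_indep h.size h1 h2 h3) X (subset_univ _)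
    unfold TH660.SC.Hf
    omega
  · intro hH
    refine MatroidIntersection.feasible_of_upper h hn fun X _ => ?_
    have := hH X
    unfold TH660.SC.Hf at this
    omega

theorem cov_iff (p : Finset (Fin n) → ℤ) (m : ℕ) (B : Finset (Fin n)) :
    Cov univ (sh p m) B ↔ ∀ X, p X ≤ ((X ∩ B).card : ℤ) + m := by
  unfold Cov sh
  constructor
  · intro h X
    have := h X (subset_univ _)
    rw [inter_comm] at this
    linarith
  · intro h X _
    have := h X
    rw [inter_comm] at this
    linarith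

/-- the decision procedure, for `n₂ ≤ n₁` -/
def core {D : Type} (size : D → ℕ) (test : D × Bool × List Bool × ℕ → Bool)
    (x : D × ℕ × ℕ × ℕ × ℕ) : Bool :=
  TH660.SC.decL (size x.1)
    (TH660.SC.hfL (size x.1) (fun B => test (x.1, false, B, x.2.1))
      (fun B => test (x.1, true, B, x.2.1)))
    (size x.1) (size x.1 * size x.1 + 1) (x.2.2.1 * x.2.2.2.2)

/-- the decision procedure -/
def dec {D : Type} (size : D → ℕ) (test : D × Bool × List Bool × ℕ → Bool)
    (x : D × ℕ × ℕ × ℕ × ℕ) : Bool :=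
  bif decide (x.2.2.2.2 ≤ x.2.2.2.1) then core size test x
  else core size test (x.1, x.2.2.1, x.2.1, x.2.2.2.2, x.2.2.2.1)

theorem core_poly {D : Type} [TEnc D] {size : D → ℕ} (hsize : UPoly size)
    {test : D × Bool × List Bool × ℕ → Bool} (htest : NPC.Poly test) :
    NPC.Poly (core size test) := by
  unfold core
  have hn : UPoly (fun x : D × ℕ × ℕ × ℕ × ℕ => size x.1) :=
    hsize.comp (NPC.Poly.fst NPC.Poly.id)
  have hT : UPoly (fun x : D × ℕ × ℕ × ℕ × ℕ => size x.1 * size x.1 + 1) :=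
    (hn.mul hn).add (UPoly.const 1)
  have h1 : NPC.Poly (fun p : (D × ℕ × ℕ × ℕ × ℕ) × List Bool =>
      test (p.1.1, false, p.2, p.1.2.1)) := htest.comp (by fun_prop)
  have h2 : NPC.Poly (fun p : (D × ℕ × ℕ × ℕ × ℕ) × List Bool =>
      test (p.1.1, true, p.2, p.1.2.1)) := htest.comp (by fun_prop)
  have hH := TH660.SC.poly_hfL hn (t₁ := fun x B => test (x.1, false, B, x.2.1))
    (t₂ := fun x B => test (x.1, true, B, x.2.1)) h1 h2
  exact TH660.SC.poly_decL hn (H := fun x => TH660.SC.hfL (size x.1)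
    (fun B => test (x.1, false, B, x.2.1)) (fun B => test (x.1, true, B, x.2.1))) hH hn.toPoly hT
    (by fun_prop)

theorem dec_poly {D : Type} [TEnc D] {size : D → ℕ} (hsize : UPoly size)
    {test : D × Bool × List Bool × ℕ → Bool} (htest : NPC.Poly test) :
    NPC.Poly (dec size test) := by
  unfold dec
  have h1 := core_poly hsize htest
  have h2 : NPC.Poly (fun x : D × ℕ × ℕ × ℕ × ℕ =>
      core size test (x.1, x.2.2.1, x.2.1, x.2.2.2.2, x.2.2.2.1)) := h1.comp (by fun_prop)
  exact NPC.Poly.cond (by fun_prop) h1 h2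

theorem core_iff {D : Type} {size : D → ℕ} {test : D × Bool × List Bool × ℕ → Bool} {d : D}
    {p₁ p₂ : Finset (Fin (size d)) → ℤ}
    (ht₁ : ∀ (B : Finset (Fin (size d))) (m : ℕ), test (d, false, code B, m) = true ↔
      ∀ X, p₁ X ≤ ((X ∩ B).card : ℤ) + m)
    (ht₂ : ∀ (B : Finset (Fin (size d))) (m : ℕ), test (d, true, code B, m) = true ↔
      ∀ X, p₂ X ≤ ((X ∩ B).card : ℤ) + m)
    {m₁ m₂ n₁ n₂ : ℕ} (h : IsInput m₁ m₂ n₁ n₂ p₁ p₂) (hn : n₂ ≤ n₁) :
    core size test (d, m₁, m₂, n₁, n₂) = true ↔ Feasible m₁ m₂ n₁ n₂ p₁ p₂ := by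
  rw [feasible_iff h hn]
  obtain ⟨b1, b2, _, _⟩ := MatroidIntersection.bounds h
  have s1 := skew_sh (MatroidIntersection.skewOn_univ h.skew₁) m₁
  have s2 := skew_sh (MatroidIntersection.skewOn_univ h.skew₂) m₁
  have c1 := cov_univ_sh b1 m₁
  have c2 := cov_univ_sh b2 m₁
  have hpos : 0 < size d := by
    have h1 := h.size
    have h2 := Nat.mul_pos h.hm₁ h.hn₁
    rw [Fintype.card_fin] at h1
    omega
  unfold core
  refine TH660.SC.decL_iff (TH660.SC.hfL_eq s1 s2 c1 c2 ?_ ?_)
    (TH660.SC.subMod_Hf s1 s2 c1 c2) (size d) _ _ (fun y => TH660.SC.gr_Hf_sq c1 c2 y) ?_ _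
  · intro B
    rw [cov_iff]
    exact ht₁ B m₁
  · intro B
    rw [cov_iff]
    exact ht₂ B m₁
  · dsimp only
    nlinarith [Nat.mul_pos hpos hpos, Nat.mul_pos (Nat.mul_pos hpos hpos) hpos]

/-- **Main theorem.** Let `D` be a type of descriptions of pairs of set functions: `d : D` describes
two functions `p d false` and `p d true` on the subsets of `Fin (size d)`, where `size d` is
computable in unary in polynomial time. Suppose that a polynomial-time procedure `test` decides for
every description `d` of two skew-supermodular functions, every `j`, every set `B` and every `m`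
whether `p_j(X) ≤ |X ∩ B| + m` for all sets `X`. Then there is a polynomial-time algorithm which
decides, for all `d`, `m₁`, `m₂`, `n₁`, `n₂` that form an input of the problem, whether a feasible
partition exists. -/
theorem result {D : Type} [TEnc D] (size : D → ℕ) (hsize : UPoly size)
    (p : (d : D) → Bool → Finset (Fin (size d)) → ℤ)
    (test : D × Bool × List Bool × ℕ → Bool) (htest : NPC.Poly test)
    (hp : ∀ d, (∀ j, SkewSupermodular (p d j)) → ∀ (j : Bool) (B : Finset (Fin (size d))) (m : ℕ),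
      test (d, j, code B, m) = true ↔ ∀ X, p d j X ≤ ((X ∩ B).card : ℤ) + m) :
    ∃ dec : D × ℕ × ℕ × ℕ × ℕ → Bool, NPC.Poly dec ∧
      ∀ (d : D) (m₁ m₂ n₁ n₂ : ℕ), IsInput m₁ m₂ n₁ n₂ (p d false) (p d true) →
        (dec (d, m₁, m₂, n₁, n₂) = true ↔ Feasible m₁ m₂ n₁ n₂ (p d false) (p d true)) := by
  refine ⟨dec size test, dec_poly hsize htest, ?_⟩
  intro d m₁ m₂ n₁ n₂ h
  have hs : ∀ j, SkewSupermodular (p d j) := by
    intro j
    cases j
    · exact h.skew₁
    · exact h.skew₂
  have ht := hp d hs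
  unfold dec
  by_cases hn : n₂ ≤ n₁
  · simp only [hn, decide_true, cond_true]
    exact core_iff (ht false) (ht true) h hn
  · simp only [hn, decide_false, cond_false]
    have h' : IsInput m₂ m₁ n₂ n₁ (p d false) (p d true) :=
      ⟨h.hm₂, h.hm₁, h.hn₂, h.hn₁, by rw [add_comm]; exact h.size, h.skew₁, h.skew₂, by
        intro X
        have := h.bound X
        rwa [add_comm m₂ m₁]⟩
    rw [core_iff (ht false) (ht true) h' (by omega)]
    exact ⟨MatroidIntersection.feasible_symm, MatroidIntersection.feasible_symm⟩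

end Pool.Agent.Results.MP_1195b1_lc.PolynomialTime
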