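import Pool.Agent.TH660.SC.AlgQ
import Pool.Agent.Results.MP_1195b1_lc.PolynomialTime

/-!
# Supermodular colouring with two prescribed class sizes: intersecting supermodular functions
# given by value oracles
-/

namespace Pool.Agent.Results.MP_1195b1_lc.ValueOracle

open Finset Pool.Agent.NPC Pool.Agent.H663R2.Skew
open Pool.Agent.Results.MP_1195b1_lc.MatroidIntersection (SkewSupermodular IsInput Feasible)

variable {n : ℕ}

/-- Intersecting supermodular functions. -/
def IntersectingSupermodular (p : Finset (Fin n) → ℤ) : Prop :=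
  ∀ X Y, (X ∩ Y).Nonempty → p X + p Y ≤ p (X ∩ Y) + p (X ∪ Y)

/-- The characteristic vector of a set. -/
def code {n : ℕ} (B : Finset (Fin n)) : List Bool := List.ofFn fun i => decide (i ∈ B)

/-- the function to be minimised -/
def fb (p : Finset (Fin n) → ℤ) (B : Finset (Fin n)) (m : ℕ) (b : Fin n) (Z : Finset (Fin n)) : ℤ :=
  ((B ∩ insert b Z).card : ℤ) + m - p (insert b Z)

theorem fb_sub {p : Finset (Fin n) → ℤ} (hp : IntersectingSupermodular p) (B : Finset (Fin n))
    (m : ℕ) (b : Fin n) : TH660.SC.SubMod (fb p B m b) := by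
  intro X Y
  unfold fb
  have e1 : insert b X ∩ insert b Y = insert b (X ∩ Y) := by
    ext x; simp only [mem_inter, mem_insert]; tauto
  have e2 : insert b X ∪ insert b Y = insert b (X ∪ Y) := by
    ext x; simp only [mem_union, mem_insert]; tauto
  have h1 := hp (insert b X) (insert b Y) ⟨b, by simp⟩
  rw [e1, e2] at h1
  have h2 := Finset.card_union_add_card_inter (B ∩ insert b X) (B ∩ insert b Y)
  have e3 : (B ∩ insert b X) ∪ (B ∩ insert b Y) = B ∩ insert b (X ∪ Y) := by
    ext x; simp only [mem_inter, mem_union, mem_insert]; tauto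
  have e4 : (B ∩ insert b X) ∩ (B ∩ insert b Y) = B ∩ insert b (X ∩ Y) := by
    ext x; simp only [mem_inter, mem_insert]; tauto
  rw [e3, e4] at h2
  have h3 : ((B ∩ insert b (X ∪ Y)).card : ℤ) + (B ∩ insert b (X ∩ Y)).card =
      (B ∩ insert b X).card + (B ∩ insert b Y).card := by exact_mod_cast h2
  linarith

/-- the test, from the values -/
def valTest {D : Type} (size : D → ℕ) (val : D × Bool × List Bool → ℤ)
    (x : D × Bool × List Bool × ℕ) : Bool :=
  decide (val (x.1, x.2.1, TH660.SC.empL (size x.1)) ≤ (x.2.2.2 : ℤ)) &&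
    (List.range (size x.1)).all fun b => decide (0 ≤ TH660.SC.minvalL (size x.1) fun Z =>
      ((TH660.SC.cntL (size x.1) x.2.2.1 (TH660.SC.insL (size x.1) Z b) : ℕ) : ℤ) +
        (x.2.2.2 : ℤ) - val (x.1, x.2.1, TH660.SC.insL (size x.1) Z b))

theorem valTest_iff {D : Type} {size : D → ℕ} {val : D × Bool × List Bool → ℤ} {d : D} {j : Bool}
    {p : Finset (Fin (size d)) → ℤ} (hv : ∀ X, val (d, j, code X) = p X)
    (hp : IntersectingSupermodular p) (B : Finset (Fin (size d))) (m : ℕ) :
    valTest size val (d, j, code B, m) = true ↔ ∀ X, p X ≤ ((X ∩ B).card : ℤ) + m := by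
  have key : ∀ b : Fin (size d), TH660.SC.minvalL (size d) (fun Z =>
      ((TH660.SC.cntL (size d) (code B) (TH660.SC.insL (size d) Z b) : ℕ) : ℤ) +
        (m : ℤ) - val (d, j, TH660.SC.insL (size d) Z b)) = TH660.SC.minval (fb p B m b) := by
    intro b
    apply TH660.SC.minvalL_eq
    intro X
    rw [TH660.SC.insL_eq]
    have e : TH660.SC.cntL (size d) (code B) (TH660.SC.code (insert b X)) =
      (B ∩ insert b X).card := TH660.SC.cntL_eq B (insert b X)
    rw [e]
    have e2 : val (d, j, TH660.SC.code (insert b X)) = p (insert b X) := hv (insert b X)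
    rw [e2]
    rfl
  unfold valTest
  dsimp only
  rw [Bool.and_eq_true, decide_eq_true_iff, List.all_eq_true, TH660.SC.empL_eq]
  have e0 : val (d, j, TH660.SC.code (∅ : Finset (Fin (size d)))) = p ∅ := hv ∅
  rw [e0]
  constructor
  · rintro ⟨h1, h2⟩ X
    rcases X.eq_empty_or_nonempty with rfl | ⟨b, hb⟩
    · simpa using h1
    · have h3 := h2 b (List.mem_range.2 b.isLt)
      rw [key b, decide_eq_true_iff, TH660.SC.le_minval_iff (fb_sub hp B m b)] at h3
      have h4 := h3 X
      unfold fb at h4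
      rw [insert_eq_of_mem hb, inter_comm] at h4
      linarith
  · intro h
    refine ⟨by simpa using h ∅, ?_⟩
    intro b hb
    have hb' := List.mem_range.1 hb
    have h3 := key ⟨b, hb'⟩
    dsimp only at h3
    rw [h3, decide_eq_true_iff, TH660.SC.le_minval_iff (fb_sub hp B m _)]
    intro Z
    have h4 := h (insert ⟨b, hb'⟩ Z)
    unfold fb
    rw [inter_comm] at h4
    linarith

theorem valTest_poly {D : Type} [TEnc D] {size : D → ℕ} (hsize : UPoly size)
    {val : D × Bool × List Bool → ℤ} (hval : NPC.Poly val) : NPC.Poly (valTest size val) := by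
  have hn : UPoly (fun x : D × Bool × List Bool × ℕ => size x.1) :=
    hsize.comp (NPC.Poly.fst NPC.Poly.id)
  have k1 : NPC.Poly (fun x : D × Bool × List Bool × ℕ => x.1) := NPC.Poly.fst NPC.Poly.id
  have k2 : NPC.Poly (fun x : D × Bool × List Bool × ℕ => x.2.1) :=
    NPC.Poly.fst (NPC.Poly.snd NPC.Poly.id)
  have k3 : NPC.Poly (fun x : D × Bool × List Bool × ℕ => x.2.2.1) :=
    NPC.Poly.fst (NPC.Poly.snd (NPC.Poly.snd NPC.Poly.id))
  have k4 : NPC.Poly (fun x : D × Bool × List Bool × ℕ => x.2.2.2) :=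
    NPC.Poly.snd (NPC.Poly.snd (NPC.Poly.snd NPC.Poly.id))
  have f1 : NPC.Poly (fun q : (D × Bool × List Bool × ℕ) × ℕ => q.1) := NPC.Poly.fst NPC.Poly.id
  have f2 : NPC.Poly (fun q : (D × Bool × List Bool × ℕ) × ℕ => q.2) := NPC.Poly.snd NPC.Poly.id
  have g1 : NPC.Poly (fun r : ((D × Bool × List Bool × ℕ) × ℕ) × List Bool => r.1.1) :=
    NPC.Poly.fst (NPC.Poly.fst NPC.Poly.id)
  have g2 : NPC.Poly (fun r : ((D × Bool × List Bool × ℕ) × ℕ) × List Bool => r.1.2) :=
    NPC.Poly.snd (NPC.Poly.fst NPC.Poly.id)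
  have g3 : NPC.Poly (fun r : ((D × Bool × List Bool × ℕ) × ℕ) × List Bool => r.2) :=
    NPC.Poly.snd NPC.Poly.id
  have hins : NPC.Poly (fun r : ((D × Bool × List Bool × ℕ) × ℕ) × List Bool =>
      TH660.SC.insL (size r.1.1.1) r.2 r.1.2) :=
    TH660.SC.poly_insL (hn.comp g1) g3 g2
  have hf : NPC.Poly (fun r : ((D × Bool × List Bool × ℕ) × ℕ) × List Bool =>
      ((TH660.SC.cntL (size r.1.1.1) r.1.1.2.2.1
        (TH660.SC.insL (size r.1.1.1) r.2 r.1.2) : ℕ) : ℤ) +
        (r.1.1.2.2.2 : ℤ) - val (r.1.1.1, r.1.1.2.1, TH660.SC.insL (size r.1.1.1) r.2 r.1.2)) :=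
    NPC.Poly.isub (NPC.Poly.iadd (NPC.Poly.natCast
      (TH660.SC.poly_cntL (hn.comp g1) (k3.comp g1) hins)) (NPC.Poly.natCast (k4.comp g1)))
      (hval.comp (NPC.Poly.pair (k1.comp g1) (NPC.Poly.pair (k2.comp g1) hins)))
  have hm : NPC.Poly (fun q : (D × Bool × List Bool × ℕ) × ℕ =>
      TH660.SC.minvalL (size q.1.1) fun Z =>
      ((TH660.SC.cntL (size q.1.1) q.1.2.2.1 (TH660.SC.insL (size q.1.1) Z q.2) : ℕ) : ℤ) +
        (q.1.2.2.2 : ℤ) - val (q.1.1, q.1.2.1, TH660.SC.insL (size q.1.1) Z q.2)) :=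
    TH660.SC.poly_minvalL (n := fun q : (D × Bool × List Bool × ℕ) × ℕ => size q.1.1)
      (f := fun q Z => ((TH660.SC.cntL (size q.1.1) q.1.2.2.1
        (TH660.SC.insL (size q.1.1) Z q.2) : ℕ) : ℤ) +
        (q.1.2.2.2 : ℤ) - val (q.1.1, q.1.2.1, TH660.SC.insL (size q.1.1) Z q.2))
      (hn.comp f1) hf
  have hall : NPC.Poly (fun x : D × Bool × List Bool × ℕ =>
      (List.range (size x.1)).all fun b => decide (0 ≤ TH660.SC.minvalL (size x.1) fun Z =>
      ((TH660.SC.cntL (size x.1) x.2.2.1 (TH660.SC.insL (size x.1) Z b) : ℕ) : ℤ) +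
        (x.2.2.2 : ℤ) - val (x.1, x.2.1, TH660.SC.insL (size x.1) Z b))) :=
    NPC.Poly.all (p := fun (x : D × Bool × List Bool × ℕ) b =>
      decide (0 ≤ TH660.SC.minvalL (size x.1) fun Z =>
      ((TH660.SC.cntL (size x.1) x.2.2.1 (TH660.SC.insL (size x.1) Z b) : ℕ) : ℤ) +
        (x.2.2.2 : ℤ) - val (x.1, x.2.1, TH660.SC.insL (size x.1) Z b)))
      hn.range (NPC.Poly.ile (NPC.Poly.const 0) hm)
  exact NPC.Poly.and (NPC.Poly.ile (hval.comp (NPC.Poly.pair k1 (NPC.Poly.pair k2
    (TH660.SC.poly_empL hn)))) (NPC.Poly.natCast k4)) hall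

/-- **Main theorem.** Let `D` be a type of descriptions of pairs of set functions: `d : D` describes
two functions `p d false` and `p d true` on the subsets of `Fin (size d)`, where `size d` is
computable in unary in polynomial time, and the values are computable in polynomial time: `val`
is a polynomial-time function with `val (d, j, code X) = p d j X`. Then there is a polynomial-time
algorithm which decides, for all `d`, `m₁`, `m₂`, `n₁`, `n₂` that form an input of the problem with
two intersecting supermodular functions, whether a feasible partition exists. -/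
theorem result {D : Type} [TEnc D] (size : D → ℕ) (hsize : UPoly size)
    (p : (d : D) → Bool → Finset (Fin (size d)) → ℤ)
    (val : D × Bool × List Bool → ℤ) (hval : NPC.Poly val)
    (hp : ∀ (d : D) (j : Bool) (X : Finset (Fin (size d))), val (d, j, code X) = p d j X) :
    ∃ dec : D × ℕ × ℕ × ℕ × ℕ → Bool, NPC.Poly dec ∧
      ∀ (d : D) (m₁ m₂ n₁ n₂ : ℕ), IntersectingSupermodular (p d false) →
        IntersectingSupermodular (p d true) → IsInput m₁ m₂ n₁ n₂ (p d false) (p d true) →
        (dec (d, m₁, m₂, n₁, n₂) = true ↔ Feasible m₁ m₂ n₁ n₂ (p d false) (p d true)) := by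
  refine ⟨PolynomialTime.dec size (valTest size val),
    PolynomialTime.dec_poly hsize (valTest_poly hsize hval), ?_⟩
  intro d m₁ m₂ n₁ n₂ i₁ i₂ h
  have ht₁ : ∀ (B : Finset (Fin (size d))) (m : ℕ),
      valTest size val (d, false, PolynomialTime.code B, m) = true ↔
      ∀ X, p d false X ≤ ((X ∩ B).card : ℤ) + m := fun B m => valTest_iff (hp d false) i₁ B m
  have ht₂ : ∀ (B : Finset (Fin (size d))) (m : ℕ),
      valTest size val (d, true, PolynomialTime.code B, m) = true ↔
      ∀ X, p d true X ≤ ((X ∩ B).card : ℤ) + m := fun B m => valTest_iff (hp d true) i₂ B m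
  unfold PolynomialTime.dec
  by_cases hn : n₂ ≤ n₁
  · simp only [hn, decide_true, cond_true]
    exact PolynomialTime.core_iff ht₁ ht₂ h hn
  · simp only [hn, decide_false, cond_false]
    have h' : IsInput m₂ m₁ n₂ n₁ (p d false) (p d true) :=
      ⟨h.hm₂, h.hm₁, h.hn₂, h.hn₁, by rw [add_comm]; exact h.size, h.skew₁, h.skew₂, by
        intro X
        have := h.bound X
        rwa [add_comm m₂ m₁]⟩
    rw [PolynomialTime.core_iff ht₁ ht₂ h' (by omega)]
    exact ⟨MatroidIntersection.feasible_symm, MatroidIntersection.feasible_symm⟩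

end Pool.Agent.Results.MP_1195b1_lc.ValueOracle
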